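import Mathlib
import Pool.Agent.Q248.ML.Base
import Pool.Agent.Q24.ML.Iff

/-!
# Malle's conjecture over large base fields for the wreath products `C₂ ≀ H`

Let `H` be a finite group with a subgroup `U` of index `u` with trivial normal core and
`8 u (u + 1) ≤ |H|`; for instance `H = X × S_n` with `X` any finite group and `n ≥ |X|`, `n ≥ 10`.
Let `G = C₂ ≀ H`, acting on `H × {0, 1}`. Then there is a number field `K₀` such that
`n_K(G, B) ~ C B` for all number fields `K ⊇ K₀`, as predicted (`ind(G) = 1`, `β_K(G) = 1`). Over a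
given number field `K` the formula holds if and only if `H` is a Galois group over `K`; so the same
statement over all number fields, for the groups `H = X × S_n`, is equivalent to the inverse Galois
problem over all number fields.
-/

set_option autoImplicit false

open Filter

namespace Pool.Agent.Results.MP_b39724_nt.OrderTwoWreath

/-- The index of a permutation: `n` minus the number of its cycles, fixed points included. -/
def ind {n : ℕ} (g : Equiv.Perm (Fin n)) : ℕ := g.cycleType.sum - Multiset.card g.cycleType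

/-- `ind(G)`: the minimum of the indices of the elements `g ≠ 1` of `G`. -/
noncomputable def minInd {n : ℕ} (G : Subgroup (Equiv.Perm (Fin n))) : ℕ :=
  sInf {j : ℕ | ∃ g ∈ G, g ≠ 1 ∧ j = ind g}

/-- `K`-conjugacy: `h` is conjugate in `G` to `g ^ a`, where some `σ` in the Galois group of `K` acts
on the roots of unity of order dividing `|G|` by `ζ ↦ ζ ^ a`. -/
def KConj (K : Type) [Field K] {n : ℕ} (G : Subgroup (Equiv.Perm (Fin n))) (g h : G) : Prop :=
  ∃ (σ : AlgebraicClosure K ≃ₐ[K] AlgebraicClosure K) (a : ℕ) (x : G),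
    (∀ ζ : AlgebraicClosure K, ζ ^ Nat.card G = 1 → σ ζ = ζ ^ a) ∧ h = x * g ^ a * x⁻¹

/-- `β_K(G)`: the number of `K`-conjugacy classes of elements of index `ind(G)`. -/
noncomputable def beta (K : Type) [Field K] {n : ℕ} (G : Subgroup (Equiv.Perm (Fin n))) : ℕ :=
  Nat.card (Quot fun g h : {g : G // ind g.1 = minInd G} => KConj K G g.1 h.1)

/-- The small `G`-fields `L` over `K` with `d_L ≤ B`, inside the algebraic closure of `K`: the degree
is `n`, the Galois group acting on the `n` embeddings is `G` up to numbering, and the norm of the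
relative discriminant is at most `B` (that is, the absolute discriminants satisfy
`|disc L| ≤ B |disc K| ^ n`). -/
def Fields (K : Type) [Field K] [NumberField K] {n : ℕ} (G : Subgroup (Equiv.Perm (Fin n)))
    (B : ℝ) : Set (IntermediateField K (AlgebraicClosure K)) :=
  {L | Module.finrank K L = n ∧
    (∃ e : (L →ₐ[K] AlgebraicClosure K) ≃ Fin n, ∀ π : Equiv.Perm (Fin n),
      π ∈ G ↔ ∃ σ : AlgebraicClosure K ≃ₐ[K] AlgebraicClosure K,
        ∀ φ : L →ₐ[K] AlgebraicClosure K, e (σ.toAlgHom.comp φ) = π (e φ)) ∧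
    ∃ h : NumberField L,
      ((|@NumberField.discr L _ h| : ℤ) : ℝ) ≤ B * ((|NumberField.discr K| : ℤ) : ℝ) ^ n}

/-- `n_K(G, B)`: the number of small `G`-fields `L` over `K` with `d_L ≤ B`, up to
`K`-isomorphism. -/
noncomputable def count (K : Type) [Field K] [NumberField K] {n : ℕ}
    (G : Subgroup (Equiv.Perm (Fin n))) (B : ℝ) : ℕ :=
  Nat.card (Quot fun L L' : Fields K G B => Nonempty (L.1 ≃ₐ[K] L'.1))

/-- The asymptotic formula of the problem over the number field `K`:
`n_K(G, B) ~ C B ^ (1 / ind(G)) (log B) ^ (β_K(G) - 1)` for some `C > 0`. -/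
def Asymptotic (K : Type) [Field K] [NumberField K] {n : ℕ} (G : Subgroup (Equiv.Perm (Fin n))) :
    Prop :=
  ∃ C : ℝ, 0 < C ∧ Tendsto (fun B : ℝ => (count K G B : ℝ) /
    (B ^ (1 / (minInd G : ℝ)) * Real.log B ^ (beta K G - 1))) atTop (nhds C)

/-- Q1 for the group `G`: there is a number field `K₀` such that the asymptotic formula holds over
every number field `K` containing `K₀`. -/
def LargeBase {n : ℕ} (G : Subgroup (Equiv.Perm (Fin n))) : Prop :=
  ∃ (K₀ : Type) (_ : Field K₀) (_ : NumberField K₀), ∀ (K : Type) [Field K] [NumberField K]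
    [Algebra K₀ K], Asymptotic K G

/-- `G ≤ S_n` is, up to a bijection `f` of `{1, ..., n}` with `H × {0, 1}`, the wreath product
`C₂ ≀ H`: it consists of all permutations `π` for which there is `h ∈ H` such that `π` maps the block
`{x} × {0, 1}` to the block `{h x} × {0, 1}`, for all `x ∈ H`. -/
def IsC2Wreath (H : Type) [Group H] {n : ℕ} (G : Subgroup (Equiv.Perm (Fin n))) : Prop :=
  ∃ f : Fin n ≃ H × Bool, ∀ π : Equiv.Perm (Fin n), π ∈ G ↔ ∃ h : H, ∀ i, (f (π i)).1 = h * (f i).1

/-- The wreath product `C₂ ≀ H`, `H` in its regular action, satisfies `P` (as a subgroup `G` of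
`S_n`, `n = 2 |H|`, for every numbering of `H × {0, 1}`). -/
def ForC2Wreath (H : Type) [Group H] (P : ∀ {n : ℕ}, Subgroup (Equiv.Perm (Fin n)) → Prop) :
    Prop :=
  ∀ (n : ℕ) (G : Subgroup (Equiv.Perm (Fin n))), IsC2Wreath H G → P G

/-- The finite group `H` is the Galois group of a finite Galois extension of `K`. -/
def IsGaloisGroup (K H : Type) [Field K] [Group H] : Prop :=
  ∃ (L : Type) (_ : Field L) (_ : Algebra K L) (_ : FiniteDimensional K L) (_ : IsGalois K L),
    Nonempty (H ≃* (L ≃ₐ[K] L))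

/-- The condition on `H`: it has a subgroup `U` of index `u` with trivial normal core and
`8 u (u + 1) ≤ |H|`. -/
def HasSmallAction (H : Type) [Group H] : Prop :=
  ∃ U : Subgroup H, U.normalCore = ⊥ ∧ U.index ≠ 0 ∧ 8 * U.index * (U.index + 1) ≤ Nat.card H

theorem two_le {H : Type} [Group H] (h : HasSmallAction H) : 2 ≤ Nat.card H := by
  obtain ⟨U, -, h0, hc⟩ := h
  have h1 : 1 ≤ U.index := Nat.one_le_iff_ne_zero.2 h0
  nlinarith

section

variable {H : Type} [Group H] [Finite H] {n : ℕ} {G : Subgroup (Equiv.Perm (Fin n))}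

theorem minInd_eq (hG : IsC2Wreath H G) : minInd G = 1 :=
  (Pool.Agent.TH444.ML.least_ind (H := H) hG).csInf_eq

theorem beta_eq (K : Type) [Field K] (h2 : 2 ≤ Nat.card H) (hG : IsC2Wreath H G) :
    beta K G = 1 := by
  have h1 := minInd_eq hG
  rw [beta, Nat.card_eq_one_iff_unique]
  constructor
  · constructor
    intro a b
    obtain ⟨a, rfl⟩ := Quot.exists_rep a
    obtain ⟨b, rfl⟩ := Quot.exists_rep b
    apply Quot.sound
    obtain ⟨x, hx⟩ := isConj_iff.1 (Pool.Agent.TH444.ML.conj_of_ind_one (H := H) h2 hG a.1 b.1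
      (a.2.trans h1) (b.2.trans h1))
    exact ⟨AlgEquiv.refl, 1, x, fun ζ _ => by simp, by rw [pow_one, hx]⟩
  · obtain ⟨g, hg, -, hg1⟩ := Pool.Agent.TH444.ML.exists_ind_one (H := H) hG
    exact ⟨Quot.mk _ ⟨⟨g, hg⟩, hg1.trans h1.symm⟩⟩

theorem asymptotic_iff (K : Type) [Field K] [NumberField K] (h2 : 2 ≤ Nat.card H)
    (hG : IsC2Wreath H G) : Asymptotic K G ↔
      ∃ C : ℝ, 0 < C ∧ Tendsto (fun B : ℝ => (count K G B : ℝ) / B) atTop (nhds C) := by
  unfold Asymptotic
  rw [minInd_eq hG, beta_eq K h2 hG]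
  simp

theorem of_galois (K : Type) [Field K] [NumberField K] (h : HasSmallAction H)
    (hG : IsC2Wreath H G) (hr : IsGaloisGroup K H) : Asymptotic K G := by
  have h2 := two_le h
  obtain ⟨U, hU, -, hc⟩ := h
  exact (asymptotic_iff K h2 hG).2 (Pool.Agent.TH444.ML.asymp_iso Pool.Agent.TH444.ML.rest K H h2 U
    hU hc ((Pool.Agent.Q24.ML.real_iff K (AlgebraicClosure K) H).1 hr) G hG)

theorem galois_of (K : Type) [Field K] [NumberField K] (h2 : 2 ≤ Nat.card H)
    (hG : IsC2Wreath H G) (h : Asymptotic K G) : IsGaloisGroup K H := by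
  obtain ⟨C, hC, hlim⟩ := (asymptotic_iff K h2 hG).1 h
  obtain ⟨B, hB⟩ := (hlim.eventually (lt_mem_nhds hC)).exists
  have h1 : count K G B ≠ 0 := by
    intro h0
    rw [h0] at hB
    simp at hB
  have h3 : Nonempty (Quot fun L L' : Fields K G B => Nonempty (L.1 ≃ₐ[K] L'.1)) :=
    (Nat.card_pos_iff.1 (Nat.pos_of_ne_zero h1)).1
  obtain ⟨q⟩ := h3
  obtain ⟨⟨L, hL⟩, -⟩ := Quot.exists_rep q
  exact Pool.Agent.Q24.ML.real_of_cnt K hG B ⟨L, hL⟩

end

theorem iff_galois (H : Type) [Group H] [Finite H] (h : HasSmallAction H) (K : Type) [Field K]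
    [NumberField K] : ForC2Wreath H (fun {_} G => Asymptotic K G) ↔ IsGaloisGroup K H := by
  constructor
  · intro h1
    obtain ⟨d, G, -, hG, -⟩ := Pool.Agent.Q24.ML.exists_group H
    exact galois_of K (two_le h) hG (h1 d G hG)
  · exact fun hr d G hG => of_galois K h hG hr

theorem large (H : Type) [Group H] [Finite H] (h : HasSmallAction H) :
    ForC2Wreath H (fun {_} G => LargeBase G) := by
  intro n G hG
  obtain ⟨K₀, i1, i2, hK₀⟩ := Pool.Agent.Q248.ML.exists_base H
  exact ⟨K₀, i1, i2, fun K _ _ _ => of_galois K h hG (hK₀ K)⟩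

theorem small_prod (X : Type) [Group X] [Finite X] (n : ℕ) (hn : 10 ≤ n) (hX : Nat.card X ≤ n) :
    HasSmallAction (X × Equiv.Perm (Fin n)) := by
  obtain ⟨-, U, hU, hc⟩ := Pool.Agent.Q24.ML.core_prod X n hn hX
  exact ⟨U, hU, Subgroup.index_ne_zero_of_finite, hc⟩

end Pool.Agent.Results.MP_b39724_nt.OrderTwoWreath

open Pool.Agent.Results.MP_b39724_nt.OrderTwoWreath in
/-- Q1 holds for `C₂ ≀ (X × S_n)`, `X` any finite group, and more generally for `C₂ ≀ H`, if `H` has
a small action (first two parts). Over a given number field `K`, the formula holds if and only if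
`H` (respectively `X`) is a Galois group over `K` (parts three and four). The exponents are
`ind(G) = β_K(G) = 1`, and such groups `G` exist and are transitive (last two parts). -/
theorem Pool.Agent.Results.MP_b39724_nt.OrderTwoWreath.result :
    (∀ (X : Type) [Group X] [Finite X] (n : ℕ), 10 ≤ n → Nat.card X ≤ n →
      ForC2Wreath (X × Equiv.Perm (Fin n)) (fun {_} G => LargeBase G)) ∧
    (∀ (H : Type) [Group H] [Finite H], HasSmallAction H →
      ForC2Wreath H (fun {_} G => LargeBase G)) ∧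
    (∀ (H : Type) [Group H] [Finite H], HasSmallAction H → ∀ (K : Type) [Field K] [NumberField K],
      ForC2Wreath H (fun {_} G => Asymptotic K G) ↔ IsGaloisGroup K H) ∧
    (∀ (X : Type) [Group X] [Finite X] (n : ℕ), 120 ^ 3 ≤ n → Nat.card X ≤ n →
      ∀ (K : Type) [Field K] [NumberField K],
      ForC2Wreath (X × Equiv.Perm (Fin n)) (fun {_} G => Asymptotic K G) ↔ IsGaloisGroup K X) ∧
    (∀ (H : Type) [Group H] [Finite H], 2 ≤ Nat.card H → ∀ (n : ℕ)
      (G : Subgroup (Equiv.Perm (Fin n))), IsC2Wreath H G →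
      minInd G = 1 ∧ ∀ (K : Type) [Field K] [NumberField K], beta K G = 1) ∧
    (∀ (H : Type) [Group H] [Finite H], ∃ (n : ℕ) (G : Subgroup (Equiv.Perm (Fin n))),
      n = 2 * Nat.card H ∧ IsC2Wreath H G ∧ ∀ i j : Fin n, ∃ g ∈ G, g i = j) := by
  refine ⟨fun X _ _ n hn hX => large _ (small_prod X n hn hX), fun H _ _ h => large H h,
    fun H _ _ h K _ _ => iff_galois H h K, fun X _ _ n hn hX K _ _ => ?_,
    fun H _ _ h2 n G hG => ⟨minInd_eq hG, fun K _ _ => beta_eq K h2 hG⟩,
    fun H _ _ => Pool.Agent.Q24.ML.exists_group H⟩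
  exact (iff_galois _ (small_prod X n (le_trans (by norm_num) hn) hX) K).trans
    (Pool.Agent.Q24.ML.real_iff_prod K n hn)
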