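import Mathlib
import Pool.Agent.Q17.ML2.Fin
import Pool.Agent.Q248.ML.Base

/-!
# Malle's conjecture over large base fields for groups with a transposition and blocks of size two

Let `G ≤ S_n` be a transitive group which contains a transposition and has a system `B` of blocks of
size two. Then `G` is the wreath product `C₂ ≀ (H, Δ)`, where `H` is the transitive group which `G`
induces on the set `Δ` of the blocks. Assume that `G` has a second system `C` of blocks, each a union
of blocks in `B`, with `c` blocks, `16 c (c + 1) ≤ n`, such that an element of `G` which maps every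
block in `C` to itself does the same for `B`. Then there is a number field `K₀` such that
`n_K(G, B) ~ C B` for all number fields `K ⊇ K₀`, as predicted (`ind(G) = 1`, `β_K(G) = 1`), and over
a given number field `K` the formula holds if and only if `G` is a Galois group over `K`. `H` need not
act regularly on `Δ`: for instance `H = S_m` acting on the `k`-tuples of different elements of
`{1, ..., m}`, `k ≥ 3`, `m ≥ 12`.
-/

set_option autoImplicit false

open Filter

namespace Pool.Agent.Results.MP_b39724_nt.Transpositions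

/-- The index of a permutation: `n` minus the number of its cycles, fixed points included. -/
def ind {n : ℕ} (g : Equiv.Perm (Fin n)) : ℕ := g.cycleType.sum - Multiset.card g.cycleType

/-- `ind(G)`: the minimum of the indices of the elements `g ≠ 1` of `G`. -/
noncomputable def minInd {n : ℕ} (G : Subgroup (Equiv.Perm (Fin n))) : ℕ :=
  sInf {j : ℕ | ∃ g ∈ G, g ≠ 1 ∧ j = ind g}

/-- `K`-conjugacy: `h` is conjugate in `G` to `g ^ a`, where some `σ` in the Galois group of `K` acts
on the roots of unity of order dividing `|G|` by `ζ ↦ ζ ^ a`. -/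
def KConj (K : Type) [Field K] {n : ℕ} (G : Subgroup (Equiv.Perm (Fin n))) (g h : G) : Prop :=
  ∃ (σ : AlgebraicClosure K ≃ₐ[K] AlgebraicClosure K) (a : ℕ) (x : G),
    (∀ ζ : AlgebraicClosure K, ζ ^ Nat.card G = 1 → σ ζ = ζ ^ a) ∧ h = x * g ^ a * x⁻¹

/-- `β_K(G)`: the number of `K`-conjugacy classes of elements of index `ind(G)`. -/
noncomputable def beta (K : Type) [Field K] {n : ℕ} (G : Subgroup (Equiv.Perm (Fin n))) : ℕ :=
  Nat.card (Quot fun g h : {g : G // ind g.1 = minInd G} => KConj K G g.1 h.1)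

/-- The small `G`-fields `L` over `K` with `d_L ≤ X`, inside the algebraic closure of `K`: the degree
is `n`, the Galois group acting on the `n` embeddings is `G` up to numbering, and the norm of the
relative discriminant is at most `X` (that is, `|disc L| ≤ X |disc K| ^ n`). -/
def Fields (K : Type) [Field K] [NumberField K] {n : ℕ} (G : Subgroup (Equiv.Perm (Fin n)))
    (X : ℝ) : Set (IntermediateField K (AlgebraicClosure K)) :=
  {L | Module.finrank K L = n ∧
    (∃ e : (L →ₐ[K] AlgebraicClosure K) ≃ Fin n, ∀ π : Equiv.Perm (Fin n),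
      π ∈ G ↔ ∃ σ : AlgebraicClosure K ≃ₐ[K] AlgebraicClosure K,
        ∀ φ : L →ₐ[K] AlgebraicClosure K, e (σ.toAlgHom.comp φ) = π (e φ)) ∧
    ∃ h : NumberField L,
      ((|@NumberField.discr L _ h| : ℤ) : ℝ) ≤ X * ((|NumberField.discr K| : ℤ) : ℝ) ^ n}

/-- `n_K(G, X)`: the number of small `G`-fields `L` over `K` with `d_L ≤ X`, up to
`K`-isomorphism. -/
noncomputable def count (K : Type) [Field K] [NumberField K] {n : ℕ}
    (G : Subgroup (Equiv.Perm (Fin n))) (X : ℝ) : ℕ :=
  Nat.card (Quot fun L L' : Fields K G X => Nonempty (L.1 ≃ₐ[K] L'.1))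

/-- The asymptotic formula of the problem over the number field `K`:
`n_K(G, X) ~ c X ^ (1 / ind(G)) (log X) ^ (β_K(G) - 1)` for some `c > 0`. -/
def Asymptotic (K : Type) [Field K] [NumberField K] {n : ℕ} (G : Subgroup (Equiv.Perm (Fin n))) :
    Prop :=
  ∃ c : ℝ, 0 < c ∧ Tendsto (fun X : ℝ => (count K G X : ℝ) /
    (X ^ (1 / (minInd G : ℝ)) * Real.log X ^ (beta K G - 1))) atTop (nhds c)

/-- Q1 for the group `G`: there is a number field `K₀` such that the asymptotic formula holds over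
every number field `K` containing `K₀`. -/
def LargeBase {n : ℕ} (G : Subgroup (Equiv.Perm (Fin n))) : Prop :=
  ∃ (K₀ : Type) (_ : Field K₀) (_ : NumberField K₀), ∀ (K : Type) [Field K] [NumberField K]
    [Algebra K₀ K], Asymptotic K G

/-- The finite group `X` is the Galois group of a finite Galois extension of `K`. -/
def Realizable (K X : Type) [Field K] [Group X] : Prop :=
  ∃ (L : Type) (_ : Field L) (_ : Algebra K L) (_ : FiniteDimensional K L) (_ : IsGalois K L),
    Nonempty (X ≃* (L ≃ₐ[K] L))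

/-- The equivalence relation `B` is invariant under `G`: its classes are blocks. -/
def Invariant {n : ℕ} (G : Subgroup (Equiv.Perm (Fin n))) (B : Setoid (Fin n)) : Prop :=
  ∀ g ∈ G, ∀ i j, B i j → B (g i) (g j)

/-- `G` is transitive and contains a transposition, the classes of `B` are blocks of size two, and
the classes of `C ≥ B` are blocks; there are `c` of them, `16 c (c + 1) ≤ n`, and an element of `G`
which maps all of them to themselves does the same for the classes of `B`. -/
def Cond {n : ℕ} (G : Subgroup (Equiv.Perm (Fin n))) (B C : Setoid (Fin n)) : Prop :=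
  (∀ i j, ∃ g ∈ G, g i = j) ∧ (∃ i j, i ≠ j ∧ Equiv.swap i j ∈ G) ∧
  Invariant G B ∧ (∀ i, {j | B i j}.ncard = 2) ∧ Invariant G C ∧ B ≤ C ∧
  16 * Nat.card (Quotient C) * (Nat.card (Quotient C) + 1) ≤ n ∧
  ∀ g ∈ G, (∀ i, C i (g i)) → ∀ i, B i (g i)

/-- `G ≤ S_n` is, up to numbering, the wreath product `C₂ ≀ (H, Δ)`: the group of all permutations of
`Δ × {0, 1}` for which there is `h ∈ H` such that they map the block `{x} × {0, 1}` to
`{act h x} × {0, 1}`, for all `x ∈ Δ`. -/
def IsWreath {H Δ : Type} (act : H → Δ → Δ) {n : ℕ} (G : Subgroup (Equiv.Perm (Fin n))) : Prop :=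
  ∃ f : Fin n ≃ Δ × Bool, ∀ π : Equiv.Perm (Fin n), π ∈ G ↔ ∃ h : H, ∀ i, (f (π i)).1 = act h (f i).1

section proof

open Pool.Agent.Q17.ML2 (IsC2WrS parts)

variable {H : Type} [Group H] [Finite H] {W U : Subgroup H} {n : ℕ}
  {G : Subgroup (Equiv.Perm (Fin n))}

theorem minInd_eq (hG : IsC2WrS H W G) : minInd G = 1 :=
  (parts.pg H W n G hG).2.1.csInf_eq

theorem beta_eq (K : Type) [Field K] (hG : IsC2WrS H W G) : beta K G = 1 := by
  have h1 := minInd_eq hG
  obtain ⟨-, hl, hc, -⟩ := parts.pg H W n G hG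
  rw [beta, Nat.card_eq_one_iff_unique]
  constructor
  · constructor
    intro a b
    obtain ⟨a, rfl⟩ := Quot.exists_rep a
    obtain ⟨b, rfl⟩ := Quot.exists_rep b
    apply Quot.sound
    obtain ⟨x, hx⟩ := isConj_iff.1 (hc a.1 b.1 (a.2.trans h1) (b.2.trans h1))
    exact ⟨AlgEquiv.refl, 1, x, fun ζ _ => by simp, by rw [pow_one, hx]⟩
  · obtain ⟨g, hg, -, hg1⟩ := hl.1
    exact ⟨Quot.mk _ ⟨⟨g, hg⟩, hg1.symm.trans h1.symm⟩⟩

theorem asymptotic_iff (K : Type) [Field K] [NumberField K] (hG : IsC2WrS H W G) :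
    Asymptotic K G ↔
      ∃ c : ℝ, 0 < c ∧ Tendsto (fun X : ℝ => (count K G X : ℝ) / X) atTop (nhds c) := by
  unfold Asymptotic
  rw [minInd_eq hG, beta_eq K hG]
  simp

theorem of_real (K : Type) [Field K] [NumberField K] (hWU : W ≤ U) (hU : U.normalCore = ⊥)
    (hc : 8 * U.index * (U.index + 1) ≤ W.index) (hG : IsC2WrS H W G) (h : Realizable K H) :
    Asymptotic K G :=
  (asymptotic_iff K hG).2 (Pool.Agent.Q17.ML2.asymp_isoS parts K H W U hWU hU hc
    ((Pool.Agent.Q24.ML.real_iff K (AlgebraicClosure K) H).1 h) G hG)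

theorem of_asymp (K : Type) [Field K] [NumberField K] (hW : W.normalCore = ⊥)
    (hG : IsC2WrS H W G) (h : Asymptotic K G) : Realizable K H ∧ Realizable K G := by
  obtain ⟨c, hc, hlim⟩ := (asymptotic_iff K hG).1 h
  obtain ⟨X, hX⟩ := (hlim.eventually (lt_mem_nhds hc)).exists
  have h1 : count K G X ≠ 0 := by
    intro h0
    rw [h0] at hX
    simp at hX
  have h3 : Nonempty (Quot fun L L' : Fields K G X => Nonempty (L.1 ≃ₐ[K] L'.1)) :=
    (Nat.card_pos_iff.1 (Nat.pos_of_ne_zero h1)).1
  obtain ⟨q⟩ := h3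
  obtain ⟨⟨L, hL⟩, -⟩ := Quot.exists_rep q
  exact ⟨Pool.Agent.Q17.ML2.real_of_cntS parts K hW hG X ⟨L, hL⟩,
    Pool.Agent.Q17.ML2.real_group_of_cnt parts Pool.Agent.Q17.ML2.rg K hG X ⟨L, hL⟩⟩

theorem large (hWU : W ≤ U) (hU : U.normalCore = ⊥)
    (hc : 8 * U.index * (U.index + 1) ≤ W.index) (hG : IsC2WrS H W G) : LargeBase G := by
  obtain ⟨K₀, i1, i2, hK₀⟩ := Pool.Agent.Q248.ML.exists_base H
  exact ⟨K₀, i1, i2, fun K _ _ _ => of_real K hWU hU hc hG (hK₀ K)⟩

end proof

end Pool.Agent.Results.MP_b39724_nt.Transpositions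

open Pool.Agent.Results.MP_b39724_nt.Transpositions in
/-- (1) Under `Cond` Q1 holds for `G`, `ind(G) = β_K(G) = 1`, and over each number field `K` the formula
holds if and only if `G` is a Galois group over `K`. (2) Q1 holds for `C₂ ≀ S_m`, where `S_m` acts on
the `k`-tuples of different elements, `k ≥ 3`, `m ≥ 12`; for `m ≥ 120 ^ 3` the formula holds over all
number fields. (3) Q1 holds for `C₂ ≀ (X × S_m)`, acting on `X/Y × S_m × {0, 1}`, for every finite
group `X` with a subgroup `Y` with trivial normal core and `m ≥ 10`, `m ≥ [X : Y]`; for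
`m ≥ 120 ^ 3` the formula holds over `K` if and only if `X` is a Galois group over `K`. -/
theorem Pool.Agent.Results.MP_b39724_nt.Transpositions.result :
    (∀ (n : ℕ) (G : Subgroup (Equiv.Perm (Fin n))) (B C : Setoid (Fin n)), 1 ≤ n → Cond G B C →
      LargeBase G ∧ minInd G = 1 ∧ ∀ (K : Type) [Field K] [NumberField K],
        beta K G = 1 ∧ (Asymptotic K G ↔ Realizable K G)) ∧
    (∀ m k : ℕ, 12 ≤ m → 3 ≤ k → k ≤ m → ∀ (n : ℕ) (G : Subgroup (Equiv.Perm (Fin n))),
      IsWreath (fun (σ : Equiv.Perm (Fin m)) (x : Fin k ↪ Fin m) => x.trans σ.toEmbedding) G →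
      LargeBase G ∧ (120 ^ 3 ≤ m → ∀ (K : Type) [Field K] [NumberField K], Asymptotic K G)) ∧
    (∀ (X : Type) [Group X] [Finite X] (Y : Subgroup X) (m : ℕ), Y.normalCore = ⊥ →
      10 ≤ m → Y.index ≤ m → ∀ (n : ℕ) (G : Subgroup (Equiv.Perm (Fin n))),
      IsWreath (fun (h : X × Equiv.Perm (Fin m)) (x : (X ⧸ Y) × Equiv.Perm (Fin m)) =>
        (h.1 • x.1, h.2 * x.2)) G →
      LargeBase G ∧ (120 ^ 3 ≤ m → ∀ (K : Type) [Field K] [NumberField K],
        Asymptotic K G ↔ Realizable K X)) := by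
  refine ⟨?_, ?_, ?_⟩
  · rintro n G B C hn ⟨h1, h2, h3, h4, h5, h6, h7, h8⟩
    obtain ⟨H, i1, i2, W, U, hG, hWU, hU, hnW, hUC, f, hf⟩ :=
      Pool.Agent.Q17.ML2.bl n G B C hn h1 h3 h5 h6 h4 h2 h8
    have hc : 8 * U.index * (U.index + 1) ≤ W.index := by
      rw [hUC]
      have e : 16 * Nat.card (Quotient C) * (Nat.card (Quotient C) + 1) =
        2 * (8 * Nat.card (Quotient C) * (Nat.card (Quotient C) + 1)) := by ring
      omega
    have hW := Pool.Agent.Q17.ML2.core_bot hWU hU
    exact ⟨large hWU hU hc hG, minInd_eq hG, fun K _ _ => ⟨beta_eq K hG,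
      fun h => (of_asymp K hW hG h).2,
      fun h => of_real K hWU hU hc hG (Pool.Agent.Q24.ML.Real.of_surj f hf h)⟩⟩
  · intro m k hm hk hkm n G hG
    obtain ⟨W, U, hWU, hU, hc, hG'⟩ := Pool.Agent.Q17.ML2.tuples Pool.Agent.Q17.ML2.ex m k
      hm hk hkm G hG
    exact ⟨large hWU hU hc hG', fun hm' K _ _ =>
      of_real K hWU hU hc hG' (Pool.Agent.Q17.ML2.real_perm K m hm')⟩
  · intro X _ _ Y m hY hm hYm n G hG
    obtain ⟨W, U, hWU, hU, hc, hG'⟩ := Pool.Agent.Q17.ML2.prods Pool.Agent.Q17.ML2.pr X Y m hY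
      hm hYm G hG
    have hW := Pool.Agent.Q17.ML2.core_bot hWU hU
    refine ⟨large hWU hU hc hG', fun hm' K _ _ => ?_⟩
    have hr := Pool.Agent.Q24.ML.real_iff_prod K (X := X) m hm'
    exact ⟨fun h => hr.1 (of_asymp K hW hG' h).1, fun h => of_real K hWU hU hc hG' (hr.2 h)⟩
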